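import Pool.Agent.Helper5.SX.St

/-!
# Project SX, module FRM
-/

set_option autoImplicit false

namespace Pool.Agent.Helper84.SX

open _root_.SX
open Finset
open scoped Classical

theorem hFRM : StTRM → StCZ → StRPC → StFRM := by
  intro hTRM hCZ hRPC V _ A c y l t0 t1 hmin hbig
  have hl : 0 < l := (hCZ V A c y l hmin.mx).1
  have h1 : ∀ B : ℕ, ∃ P : Finset V × Finset V,
      (B ∈ Gd A c y l t0 t1 → Term (Arc A c y l) (Rp A c y l t0 B) P.1 ∧
        Term (Free A c y l) P.1 P.2) ∧
      (B ∉ Gd A c y l t0 t1 → P.1 = ∅ ∧ P.2 = ∅) := by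
    intro B
    by_cases hB : B ∈ Gd A c y l t0 t1
    · have hB' := hB
      unfold Gd at hB'
      rw [mem_filter] at hB'
      have h2 := hRPC V A c y l t0 hmin.mx.st hl B hB'.1
      have h3 : 0 < (Rp A c y l t0 B).card := by
        have := hB'.2
        omega
      obtain ⟨C, hC⟩ := hTRM V (Arc A c y l) (Rp A c y l t0 B) (card_pos.1 h3)
      obtain ⟨L, hL⟩ := hTRM V (Free A c y l) C hC.ne
      exact ⟨(C, L), fun _ => ⟨hC, hL⟩, fun h => absurd hB h⟩
    · exact ⟨(∅, ∅), fun h => absurd h hB, fun _ => ⟨rfl, rfl⟩⟩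
  choose P hP1 hP2 using h1
  exact ⟨fun B => (P B).1, fun B => (P B).2,
    { st := hmin
      big := hbig
      comp := fun B hB => (hP1 B hB).1
      free := fun B hB => (hP1 B hB).2
      out := fun B hB => hP2 B hB }⟩

end Pool.Agent.Helper84.SX
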